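import Mathlib
import Pool.Agent.X174.Cliff.Defs
import Pool.Agent.X174.Cliff.Inst
import Pool.Agent.X174.Cliff.Topo

set_option autoImplicit false

namespace Pool.Agent.Results.MP_782c7c_an.TwoCircles

open Pool.Agent.X174.Cliff

/-- For every `d ≥ 3` there are Hermitian `A_1, …, A_d ∈ M_8(ℂ)` whose Clifford spectrum is a
one-manifold (the matrices constructed have Clifford spectrum two disjoint circles). -/
theorem result : ∀ d : ℕ, 3 ≤ d → ∃ A : Fin d → Matrix (Fin 8) (Fin 8) ℂ,
    (∀ j, (A j).IsHermitian) ∧ IsOneManifold (cliffordSpectrum A) := by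
  intro d hd
  obtain ⟨m, rfl⟩ := Nat.exists_eq_add_of_le' hd
  refine ⟨AA m, AA_herm, ?_⟩
  have h : cliffordSpectrum (AA m) = Set.range (par m) := by
    rw [par_range]
    ext lam
    exact mem_spec lam
  obtain ⟨e⟩ := homeo_of_desc _ h
  exact isOneManifold_of_homeo e

end Pool.Agent.Results.MP_782c7c_an.TwoCircles
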